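import Pool.Agent.helper40.TA.Descent

set_option autoImplicit false

/-! MP_fc48e7_al: module ANISO. -/

namespace Pool.Agent.helper40.TA

open Pool.Agent.helper83.TA Polynomial

/-- The statement of module DESC. -/
lemma descent' (hpos : PosStmt) {y0 y1 y2 : Fin 9 → S (Polynomial ℚ)} (h : Sol y0 y1 y2) :
    (∀ k, y0 k = 0) ∧ (∀ k, y1 k = 0) ∧ (∀ k, y2 k = 0) := by
  obtain ⟨h0, h1, h2⟩ := descent_of hpos y0 y1 y2 h.1 h.2.1 h.2.2
  exact ⟨fun k => congrFun h0 k, fun k => congrFun h1 k, fun k => congrFun h2 k⟩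

/-- Coordinates. -/
def crd {R : Type} (x : S R) : Fin 6 → R := ![x.a0, x.a1, x.a2, x.b0, x.b1, x.b2]

lemma S_map_inj {R R' : Type} [CommRing R] [CommRing R'] (f : R →+* R')
    (hf : Function.Injective f) : Function.Injective (S.map f) := by
  intro x y h
  ext
  · exact hf (congrArg S.a0 h)
  · exact hf (congrArg S.a1 h)
  · exact hf (congrArg S.a2 h)
  · exact hf (congrArg S.b0 h)
  · exact hf (congrArg S.b1 h)
  · exact hf (congrArg S.b2 h)

/-- Clearing denominators. -/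
lemma exists_integral (X : Matrix I I (S F0)) : ∃ (c : Polynomial ℚ) (Y : Matrix I I (S (Polynomial ℚ))),
    c ≠ 0 ∧ ∀ p q, S.map (algebraMap (Polynomial ℚ) F0) (Y p q) =
      S.C (algebraMap (Polynomial ℚ) F0 c) * X p q := by
  classical
  obtain ⟨c, hc⟩ := IsLocalization.exist_integer_multiples_of_finite (nonZeroDivisors (Polynomial ℚ))
    (fun u : I × I × Fin 6 => crd (X u.1 u.2.1) u.2.2)
  have hc' : ∀ (p q : I) (i : Fin 6), ∃ f : Polynomial ℚ, algebraMap (Polynomial ℚ) F0 f =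
      algebraMap (Polynomial ℚ) F0 c * crd (X p q) i := by
    intro p q i
    obtain ⟨f, hf⟩ := hc (p, q, i)
    refine ⟨f, ?_⟩
    rw [hf, Algebra.smul_def]
  choose f hf using hc'
  refine ⟨c, fun p q => ⟨f p q 0, f p q 1, f p q 2, f p q 3, f p q 4, f p q 5⟩,
    nonZeroDivisors.coe_ne_zero c, fun p q => ?_⟩
  rw [C_mul_ext]
  ext1
  · exact hf p q 0
  · exact hf p q 1
  · exact hf p q 2
  · exact hf p q 3
  · exact hf p q 4
  · exact hf p q 5

section

variable {R : Type} [CommRing R] (t : R) (Y : Matrix I I (S R))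

lemma BY0 (k : Fin 9) (q : I) : (B t * Y) (k, 0) q = S.C t * Y (k, 2) q := by
  rw [Matrix.mul_apply, Fintype.sum_prod_type]
  simp [B, B3, Fin.sum_univ_three, Finset.sum_ite_eq]

lemma BY1 (k : Fin 9) (q : I) : (B t * Y) (k, 1) q = Y (k, 0) q := by
  rw [Matrix.mul_apply, Fintype.sum_prod_type]
  simp [B, B3, Fin.sum_univ_three, Finset.sum_ite_eq]

lemma BY2 (k : Fin 9) (q : I) : (B t * Y) (k, 2) q = Y (k, 1) q := by
  rw [Matrix.mul_apply, Fintype.sum_prod_type]
  simp [B, B3, Fin.sum_univ_three, Finset.sum_ite_eq]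

lemma YB0 (p : I) (j : Fin 9) : (Y * B t) p (j, 0) = Y p (j, 1) := by
  rw [Matrix.mul_apply, Fintype.sum_prod_type]
  simp [B, B3, Fin.sum_univ_three, Finset.sum_ite_eq]

lemma YB1 (p : I) (j : Fin 9) : (Y * B t) p (j, 1) = Y p (j, 2) := by
  rw [Matrix.mul_apply, Fintype.sum_prod_type]
  simp [B, B3, Fin.sum_univ_three, Finset.sum_ite_eq]

lemma herm (p q : I) : ((Y.map S.rh).transpose * Q t * Y) p q =
    ∑ k, (wt k : S R) * (S.rh (Y (k, 0) p) * Y (k, 0) q +
      S.C t * (S.rh (Y (k, 1) p) * Y (k, 2) q + S.rh (Y (k, 2) p) * Y (k, 1) q)) := by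
  rw [Matrix.mul_assoc, Matrix.mul_apply, Fintype.sum_prod_type]
  refine Finset.sum_congr rfl fun k _ => ?_
  have hQ : ∀ i : Fin 3, (Q t * Y) (k, i) q = ∑ i', (wt k : S R) * C3 t i i' * Y (k, i') q := by
    intro i
    rw [Matrix.mul_apply, Fintype.sum_prod_type]
    simp [Q, Finset.sum_ite_eq]
  rw [Fin.sum_univ_three, hQ, hQ, hQ]
  simp [C3, Fin.sum_univ_three]
  ring

end

/-- (module ANISO) from `descent` -/
theorem aniso_of (hpos : PosStmt) (X : Matrix I I (S F0))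
    (h1 : X.map S.sg * B RatFunc.X = B RatFunc.X * X)
    (h2 : (X.map S.rh).transpose * Q RatFunc.X * X = 0) : X = 0 := by
  obtain ⟨c, Y, hc, hY⟩ := exists_integral X
  have hcF : algebraMap (Polynomial ℚ) F0 c ≠ 0 := by
    intro h
    exact hc ((map_eq_zero_iff _ (IsFractionRing.injective (Polynomial ℚ) F0)).1 h)
  have hinj := S_map_inj _ (IsFractionRing.injective (Polynomial ℚ) F0)
  have hXT : algebraMap (Polynomial ℚ) F0 Polynomial.X = RatFunc.X := RatFunc.algebraMap_X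
  -- the matrix `Y`
  have hYX : Y.map (S.map (algebraMap (Polynomial ℚ) F0)) =
      S.C (algebraMap (Polynomial ℚ) F0 c) • X := by
    ext1 p q
    rw [Matrix.map_apply, hY]
    rfl
  have hB : (B (Polynomial.X : Polynomial ℚ)).map (S.map (algebraMap (Polynomial ℚ) F0)) =
      B RatFunc.X := by
    rw [B_map, hXT]
  have hQ : (Q (Polynomial.X : Polynomial ℚ)).map (S.map (algebraMap (Polynomial ℚ) F0)) =
      Q RatFunc.X := by
    rw [Q_map, hXT]
  have hsg : (Y.map S.sg).map (S.map (algebraMap (Polynomial ℚ) F0)) =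
      S.C (algebraMap (Polynomial ℚ) F0 c) • X.map S.sg := by
    ext1 p q
    rw [Matrix.map_apply, Matrix.map_apply, S.map_sg, hY, map_mul, S.sg_C]
    rfl
  have hrh : (Y.map S.rh).map (S.map (algebraMap (Polynomial ℚ) F0)) =
      S.C (algebraMap (Polynomial ℚ) F0 c) • X.map S.rh := by
    ext1 p q
    rw [Matrix.map_apply, Matrix.map_apply, S.map_rh, hY, map_mul, S.rh_C]
    rfl
  have minj : Function.Injective (fun M : Matrix I I (S (Polynomial ℚ)) =>
      M.map (S.map (algebraMap (Polynomial ℚ) F0))) := by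
    intro M N h
    ext1 p q
    exact hinj (congrFun (congrFun h p) q)
  have k1 : Y.map S.sg * B Polynomial.X = B Polynomial.X * Y := by
    apply minj
    show (Y.map S.sg * B Polynomial.X).map (S.map (algebraMap (Polynomial ℚ) F0)) =
      (B Polynomial.X * Y).map (S.map (algebraMap (Polynomial ℚ) F0))
    rw [Matrix.map_mul, Matrix.map_mul, hsg, hB, hYX, Matrix.smul_mul, Matrix.mul_smul, h1]
  have k2 : (Y.map S.rh).transpose * Q Polynomial.X * Y = 0 := by
    apply minj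
    show ((Y.map S.rh).transpose * Q Polynomial.X * Y).map (S.map (algebraMap (Polynomial ℚ) F0)) =
      (0 : Matrix I I (S (Polynomial ℚ))).map (S.map (algebraMap (Polynomial ℚ) F0))
    rw [Matrix.map_mul, Matrix.map_mul, Matrix.transpose_map, hrh, hQ, hYX,
      Matrix.map_zero _ (map_zero _), Matrix.transpose_smul, Matrix.smul_mul, Matrix.smul_mul,
      Matrix.mul_smul, h2, smul_zero, smul_zero]
  -- the columns
  have c1 : ∀ (j k : Fin 9), S.sg (Y (k, 0) (j, 1)) = S.C Polynomial.X * Y (k, 2) (j, 0) ∧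
      S.sg (Y (k, 1) (j, 1)) = Y (k, 0) (j, 0) ∧ S.sg (Y (k, 2) (j, 1)) = Y (k, 1) (j, 0) := by
    intro j k
    refine ⟨?_, ?_, ?_⟩
    · have := congrFun (congrFun k1 (k, 0)) (j, 0)
      rwa [YB0, BY0] at this
    · have := congrFun (congrFun k1 (k, 1)) (j, 0)
      rwa [YB0, BY1] at this
    · have := congrFun (congrFun k1 (k, 2)) (j, 0)
      rwa [YB0, BY2] at this
  have c2 : ∀ (j k : Fin 9), S.sg (Y (k, 0) (j, 2)) = S.C Polynomial.X * Y (k, 2) (j, 1) ∧
      S.sg (Y (k, 1) (j, 2)) = Y (k, 0) (j, 1) ∧ S.sg (Y (k, 2) (j, 2)) = Y (k, 1) (j, 1) := by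
    intro j k
    refine ⟨?_, ?_, ?_⟩
    · have := congrFun (congrFun k1 (k, 0)) (j, 1)
      rwa [YB1, BY0] at this
    · have := congrFun (congrFun k1 (k, 1)) (j, 1)
      rwa [YB1, BY1] at this
    · have := congrFun (congrFun k1 (k, 2)) (j, 1)
      rwa [YB1, BY2] at this
  have d1 : ∀ (j k : Fin 9), Y (k, 0) (j, 1) = S.C Polynomial.X * S.sg (S.sg (Y (k, 2) (j, 0))) ∧
      Y (k, 1) (j, 1) = S.sg (S.sg (Y (k, 0) (j, 0))) ∧
      Y (k, 2) (j, 1) = S.sg (S.sg (Y (k, 1) (j, 0))) := by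
    intro j k
    obtain ⟨e0, e1, e2⟩ := c1 j k
    refine ⟨?_, sg_inj e1, sg_inj e2⟩
    rw [sg_inj e0, map_mul, map_mul, S.sg_C, S.sg_C]
  have d2 : ∀ (j k : Fin 9), Y (k, 0) (j, 2) = S.C Polynomial.X * S.sg (Y (k, 1) (j, 0)) ∧
      Y (k, 1) (j, 2) = S.C Polynomial.X * S.sg (Y (k, 2) (j, 0)) ∧
      Y (k, 2) (j, 2) = S.sg (Y (k, 0) (j, 0)) := by
    intro j k
    obtain ⟨e0, e1, e2⟩ := c2 j k
    obtain ⟨f0, f1, f2⟩ := d1 j k
    refine ⟨?_, ?_, ?_⟩
    · rw [sg_inj e0, map_mul, map_mul, S.sg_C, S.sg_C, f2, S.sg_sg_sg]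
    · rw [sg_inj e1, f0, map_mul, map_mul, S.sg_C, S.sg_C, S.sg_sg_sg]
    · rw [sg_inj e2, f1, S.sg_sg_sg]
  have hzero : ∀ (j k : Fin 9), Y (k, 0) (j, 0) = 0 ∧ Y (k, 1) (j, 0) = 0 ∧
      Y (k, 2) (j, 0) = 0 := by
    intro j
    have hsol : Sol (fun k => Y (k, 0) (j, 0)) (fun k => Y (k, 1) (j, 0))
        (fun k => Y (k, 2) (j, 0)) := by
      refine ⟨?_, ?_, ?_⟩
      · have := congrFun (congrFun k2 (j, 0)) (j, 0)
        rw [herm] at this
        exact this
      · apply CX_cancel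
        have := congrFun (congrFun k2 (j, 0)) (j, 1)
        rw [herm] at this
        rw [Finset.mul_sum]
        refine Eq.trans (Finset.sum_congr rfl fun k _ => ?_) this
        obtain ⟨f0, f1, f2⟩ := d1 j k
        rw [f0, f1, f2]
        ring
      · apply CX_cancel
        have := congrFun (congrFun k2 (j, 0)) (j, 2)
        rw [herm] at this
        rw [Finset.mul_sum]
        refine Eq.trans (Finset.sum_congr rfl fun k _ => ?_) this
        obtain ⟨f0, f1, f2⟩ := d2 j k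
        rw [f0, f1, f2]
        ring
    obtain ⟨g0, g1, g2⟩ := descent' hpos hsol
    exact fun k => ⟨g0 k, g1 k, g2 k⟩
  have hY0 : ∀ p q, Y p q = 0 := by
    rintro ⟨k, i⟩ ⟨j, l⟩
    obtain ⟨z0, z1, z2⟩ := hzero j k
    obtain ⟨f0, f1, f2⟩ := d1 j k
    obtain ⟨g0, g1, g2⟩ := d2 j k
    rw [z2, map_zero, map_zero, mul_zero] at f0
    rw [z0, map_zero, map_zero] at f1
    rw [z1, map_zero, map_zero] at f2
    rw [z1, map_zero, mul_zero] at g0
    rw [z2, map_zero, mul_zero] at g1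
    rw [z0, map_zero] at g2
    fin_cases i <;> fin_cases l <;> assumption
  ext1 p q
  have h0 := hY p q
  rw [hY0, map_zero] at h0
  rw [C_mul_ext] at h0
  have e0 := congrArg S.a0 h0
  have e1 := congrArg S.a1 h0
  have e2 := congrArg S.a2 h0
  have e3 := congrArg S.b0 h0
  have e4 := congrArg S.b1 h0
  have e5 := congrArg S.b2 h0
  simp only [S.zero_a0, S.zero_a1, S.zero_a2, S.zero_b0, S.zero_b1, S.zero_b2, zero_eq_mul, hcF,
    false_or] at e0 e1 e2 e3 e4 e5
  rw [Matrix.zero_apply]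
  ext <;> simp [e0, e1, e2, e3, e4, e5]

end Pool.Agent.helper40.TA
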