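import Pool.Agent.helper83.TA.Defs

set_option autoImplicit false

/-! MP_fc48e7_al: modules DESC and ANISO. -/

namespace Pool.Agent.helper40.TA

open Pool.Agent.helper83.TA

/-- The statement of module POS. -/
def PosStmt : Prop := ∀ e : Fin 9 → S ℚ, ∑ k, (wt k : S ℚ) * (S.rh (e k) * e k) = 0 → e = 0

/-- The three equations. -/
def Sol (y0 y1 y2 : Fin 9 → S (Polynomial ℚ)) : Prop :=
  (∑ k, (wt k : S (Polynomial ℚ)) * (S.rh (y0 k) * y0 k +
      S.C Polynomial.X * (S.rh (y1 k) * y2 k + S.rh (y2 k) * y1 k)) = 0) ∧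
  (∑ k, (wt k : S (Polynomial ℚ)) * (S.rh (y0 k) * S.sg (S.sg (y2 k)) +
      S.rh (y2 k) * S.sg (S.sg (y0 k)) + S.rh (y1 k) * S.sg (S.sg (y1 k))) = 0) ∧
  (∑ k, (wt k : S (Polynomial ℚ)) * (S.rh (y0 k) * S.sg (y1 k) +
      S.rh (y1 k) * S.sg (y0 k) + S.C Polynomial.X * (S.rh (y2 k) * S.sg (y2 k))) = 0)

lemma C_mul_ext {R : Type} [CommRing R] (r : R) (z : S R) :
    S.C r * z = ⟨r * z.a0, r * z.a1, r * z.a2, r * z.b0, r * z.b1, r * z.b2⟩ := by
  ext <;> simp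

lemma CX_cancel {z : S (Polynomial ℚ)} (h : S.C Polynomial.X * z = 0) : z = 0 := by
  rw [C_mul_ext] at h
  have hX : (Polynomial.X : Polynomial ℚ) ≠ 0 := Polynomial.X_ne_zero
  have h0 := congrArg S.a0 h
  have h1 := congrArg S.a1 h
  have h2 := congrArg S.a2 h
  have h3 := congrArg S.b0 h
  have h4 := congrArg S.b1 h
  have h5 := congrArg S.b2 h
  simp only [S.zero_a0, S.zero_a1, S.zero_a2, S.zero_b0, S.zero_b1, S.zero_b2, mul_eq_zero, hX,
    false_or] at h0 h1 h2 h3 h4 h5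
  ext <;> simp [h0, h1, h2, h3, h4, h5]

lemma dvd_of_eval {z : S (Polynomial ℚ)} (h : S.map (Polynomial.evalRingHom 0) z = 0) :
    ∃ w, z = S.C Polynomial.X * w := by
  have key : ∀ f : Polynomial ℚ, Polynomial.evalRingHom 0 f = 0 → ∃ g, f = Polynomial.X * g := by
    intro f hf
    have : Polynomial.X ∣ f := by
      rw [Polynomial.X_dvd_iff, Polynomial.coeff_zero_eq_eval_zero]
      simpa using hf
    exact this
  have h0 := congrArg S.a0 h
  have h1 := congrArg S.a1 h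
  have h2 := congrArg S.a2 h
  have h3 := congrArg S.b0 h
  have h4 := congrArg S.b1 h
  have h5 := congrArg S.b2 h
  simp only [S.map_a0, S.map_a1, S.map_a2, S.map_b0, S.map_b1, S.map_b2, S.zero_a0, S.zero_a1,
    S.zero_a2, S.zero_b0, S.zero_b1, S.zero_b2] at h0 h1 h2 h3 h4 h5
  obtain ⟨g0, e0⟩ := key _ h0
  obtain ⟨g1, e1⟩ := key _ h1
  obtain ⟨g2, e2⟩ := key _ h2
  obtain ⟨g3, e3⟩ := key _ h3
  obtain ⟨g4, e4⟩ := key _ h4
  obtain ⟨g5, e5⟩ := key _ h5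
  refine ⟨⟨g0, g1, g2, g3, g4, g5⟩, ?_⟩
  rw [C_mul_ext]
  ext1 <;> assumption

/-- One step of the descent. -/
lemma step (hpos : PosStmt) {y0 y1 y2 : Fin 9 → S (Polynomial ℚ)} (h : Sol y0 y1 y2) :
    ∃ z : Fin 9 → S (Polynomial ℚ), (∀ k, y0 k = S.C Polynomial.X * z k) ∧
      Sol (fun k => S.sg (y1 k)) (fun k => S.sg (y2 k)) (fun k => S.sg (z k)) := by
  obtain ⟨h1, h2, h3⟩ := h
  -- evaluation at `0`
  have hev := congrArg (S.map (Polynomial.evalRingHom (0 : ℚ))) h1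
  rw [map_sum, map_zero] at hev
  have hev' : ∑ k, (wt k : S ℚ) * (S.rh (S.map (Polynomial.evalRingHom (0 : ℚ)) (y0 k)) *
      S.map (Polynomial.evalRingHom (0 : ℚ)) (y0 k)) = 0 := by
    rw [← hev]
    refine Finset.sum_congr rfl fun k _ => ?_
    have hC : S.map (Polynomial.evalRingHom (0 : ℚ)) (S.C Polynomial.X) = 0 := by
      rw [S.map_C]
      simp
    rw [map_mul, map_add, map_mul, map_mul, hC, zero_mul, add_zero, map_natCast, S.map_rh]
  have hz := hpos _ hev'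
  choose z hz using fun k => dvd_of_eval (z := y0 k) (congrFun hz k)
  refine ⟨z, hz, ?_, ?_, ?_⟩
  · have h4 := congrArg (fun s => S.sg (S.sg s)) h2
    simp only [map_sum, map_zero] at h4
    rw [← h4]
    refine Finset.sum_congr rfl fun k _ => ?_
    rw [hz k]
    simp only [map_mul, map_add, map_natCast, S.rh_sg, S.sg_C, S.rh_C, S.sg_sg_sg]
    ring
  · have h4 : ∑ k, (wt k : S (Polynomial ℚ)) * (S.rh (z k) * S.sg (y1 k) +
        S.rh (y1 k) * S.sg (z k) + S.rh (y2 k) * S.sg (y2 k)) = 0 := by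
      apply CX_cancel
      rw [← h3, Finset.mul_sum]
      refine Finset.sum_congr rfl fun k _ => ?_
      rw [hz k]
      simp only [map_mul, S.sg_C, S.rh_C]
      ring
    have h5 := congrArg (fun s => S.sg (S.sg s)) h4
    simp only [map_sum, map_zero] at h5
    rw [← h5]
    refine Finset.sum_congr rfl fun k _ => ?_
    simp only [map_mul, map_add, map_natCast, S.rh_sg, S.sg_sg_sg]
    ring
  · have h4 : ∑ k, (wt k : S (Polynomial ℚ)) * (S.rh (y1 k) * y2 k +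
        S.rh (y2 k) * y1 k + S.C Polynomial.X * (S.rh (z k) * z k)) = 0 := by
      apply CX_cancel
      rw [← h1, Finset.mul_sum]
      refine Finset.sum_congr rfl fun k _ => ?_
      rw [hz k]
      simp only [map_mul, S.rh_C]
      ring
    have h5 := congrArg (fun s => S.sg (S.sg s)) h4
    simp only [map_sum, map_zero] at h5
    rw [← h5]
    refine Finset.sum_congr rfl fun k _ => ?_
    simp only [map_mul, map_add, map_natCast, S.rh_sg, S.sg_C]

lemma sg_inj {a b : S (Polynomial ℚ)} (h : S.sg a = b) : a = S.sg (S.sg b) := by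
  rw [← h, S.sg_sg_sg]

/-- Three steps. -/
lemma step3 (hpos : PosStmt) {y0 y1 y2 : Fin 9 → S (Polynomial ℚ)} (h : Sol y0 y1 y2) :
    ∃ z0 z1 z2 : Fin 9 → S (Polynomial ℚ), (∀ k, y0 k = S.C Polynomial.X * z0 k) ∧
      (∀ k, y1 k = S.C Polynomial.X * z1 k) ∧ (∀ k, y2 k = S.C Polynomial.X * z2 k) ∧
      Sol z0 z1 z2 := by
  obtain ⟨z, hz, h1⟩ := step hpos h
  obtain ⟨z', hz', h2⟩ := step hpos h1
  obtain ⟨z'', hz'', h3⟩ := step hpos h2
  simp only [S.sg_sg_sg] at h3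
  refine ⟨z, fun k => S.sg (S.sg (z' k)), fun k => S.sg (z'' k), hz, fun k => ?_, fun k => ?_, ?_⟩
  · have := sg_inj (hz' k)
    rw [this]
    simp only [map_mul, S.sg_C]
  · have := sg_inj (sg_inj (hz'' k))
    rw [this]
    simp only [map_mul, S.sg_C, S.sg_sg_sg]
  · exact h3

lemma pow_dvd (hpos : PosStmt) (n : ℕ) : ∀ {y0 y1 y2 : Fin 9 → S (Polynomial ℚ)},
    Sol y0 y1 y2 → ∃ z0 z1 z2 : Fin 9 → S (Polynomial ℚ),
      (∀ k, y0 k = S.C (Polynomial.X ^ n) * z0 k) ∧ (∀ k, y1 k = S.C (Polynomial.X ^ n) * z1 k) ∧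
      (∀ k, y2 k = S.C (Polynomial.X ^ n) * z2 k) := by
  induction n with
  | zero =>
    intro y0 y1 y2 _
    exact ⟨y0, y1, y2, by simp, by simp, by simp⟩
  | succ n ih =>
    intro y0 y1 y2 h
    obtain ⟨z0, z1, z2, e0, e1, e2, hz⟩ := step3 hpos h
    obtain ⟨w0, w1, w2, f0, f1, f2⟩ := ih hz
    refine ⟨w0, w1, w2, fun k => ?_, fun k => ?_, fun k => ?_⟩
    · rw [e0, f0, pow_succ, map_mul]; ring
    · rw [e1, f1, pow_succ, map_mul]; ring
    · rw [e2, f2, pow_succ, map_mul]; ring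

lemma eq_zero_of_pow {z : S (Polynomial ℚ)}
    (h : ∀ n : ℕ, ∃ w, z = S.C (Polynomial.X ^ n) * w) : z = 0 := by
  have key : ∀ f : Polynomial ℚ, (∀ n : ℕ, ∃ g, f = Polynomial.X ^ n * g) → f = 0 := by
    intro f hf
    by_contra hne
    obtain ⟨g, hg⟩ := hf (f.natDegree + 1)
    have hg0 : g ≠ 0 := by
      rintro rfl
      rw [mul_zero] at hg
      exact hne hg
    have h1 : f.natDegree = (f.natDegree + 1) + g.natDegree := by
      conv_lhs => rw [hg]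
      rw [Polynomial.natDegree_mul (pow_ne_zero _ Polynomial.X_ne_zero) hg0,
        Polynomial.natDegree_X_pow]
    omega
  have h0 : z.a0 = 0 := key _ fun n => by
    obtain ⟨w, hw⟩ := h n
    exact ⟨w.a0, by rw [hw, C_mul_ext]⟩
  have h1 : z.a1 = 0 := key _ fun n => by
    obtain ⟨w, hw⟩ := h n
    exact ⟨w.a1, by rw [hw, C_mul_ext]⟩
  have h2 : z.a2 = 0 := key _ fun n => by
    obtain ⟨w, hw⟩ := h n
    exact ⟨w.a2, by rw [hw, C_mul_ext]⟩
  have h3 : z.b0 = 0 := key _ fun n => by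
    obtain ⟨w, hw⟩ := h n
    exact ⟨w.b0, by rw [hw, C_mul_ext]⟩
  have h4 : z.b1 = 0 := key _ fun n => by
    obtain ⟨w, hw⟩ := h n
    exact ⟨w.b1, by rw [hw, C_mul_ext]⟩
  have h5 : z.b2 = 0 := key _ fun n => by
    obtain ⟨w, hw⟩ := h n
    exact ⟨w.b2, by rw [hw, C_mul_ext]⟩
  ext1 <;> simpa using by assumption

/-- (module DESC) infinite descent at `t = 0` -/
theorem descent_of (hpos : PosStmt) (y0 y1 y2 : Fin 9 → S (Polynomial ℚ))
    (h1 : ∑ k, (wt k : S (Polynomial ℚ)) * (S.rh (y0 k) * y0 k +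
      S.C Polynomial.X * (S.rh (y1 k) * y2 k + S.rh (y2 k) * y1 k)) = 0)
    (h2 : ∑ k, (wt k : S (Polynomial ℚ)) * (S.rh (y0 k) * S.sg (S.sg (y2 k)) +
      S.rh (y2 k) * S.sg (S.sg (y0 k)) + S.rh (y1 k) * S.sg (S.sg (y1 k))) = 0)
    (h3 : ∑ k, (wt k : S (Polynomial ℚ)) * (S.rh (y0 k) * S.sg (y1 k) +
      S.rh (y1 k) * S.sg (y0 k) + S.C Polynomial.X * (S.rh (y2 k) * S.sg (y2 k))) = 0) :
    y0 = 0 ∧ y1 = 0 ∧ y2 = 0 := by
  have hS : Sol y0 y1 y2 := ⟨h1, h2, h3⟩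
  refine ⟨?_, ?_, ?_⟩
  · funext k
    exact eq_zero_of_pow fun n => by
      obtain ⟨z0, z1, z2, e0, e1, e2⟩ := pow_dvd hpos n hS
      exact ⟨z0 k, e0 k⟩
  · funext k
    exact eq_zero_of_pow fun n => by
      obtain ⟨z0, z1, z2, e0, e1, e2⟩ := pow_dvd hpos n hS
      exact ⟨z1 k, e1 k⟩
  · funext k
    exact eq_zero_of_pow fun n => by
      obtain ⟨z0, z1, z2, e0, e1, e2⟩ := pow_dvd hpos n hS
      exact ⟨z2 k, e2 k⟩

end Pool.Agent.helper40.TA
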